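import Pool.Agent.N912.LB.Stm

/-!
# Project LB, part HA: the number of ideals of an imaginary quadratic field with error term `O(√X)`
-/

set_option autoImplicit false

namespace Pool.Agent.N457.LB

open MeasureTheory Set Module
open Pool.Agent.N912.LB (rI S_HA)

section lattice

variable {E : Type} [NormedAddCommGroup E] [NormedSpace ℝ E] [FiniteDimensional ℝ E]
  {ι : Type} [Fintype ι]

/-- the number of lattice points in a ball of a plane -/
theorem lattice_count (b : Basis ι ℝ E) (h2 : finrank ℝ E = 2) :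
    ∃ c C : ℝ, 0 < c ∧ 0 ≤ C ∧ ∀ R : ℝ, 0 ≤ R → ∀ S : Finset E,
      (∀ x, x ∈ S ↔ x ∈ Submodule.span ℤ (Set.range b) ∧ ‖x‖ ≤ R) →
      |(S.card : ℝ) - c * R ^ 2| ≤ C * (R + 1) := by
  classical
  borelize E
  let μ : Measure E := Measure.addHaar
  set F : Set E := ZSpan.fundamentalDomain b with hF
  have hFm : MeasurableSet F := ZSpan.fundamentalDomain_measurableSet b
  obtain ⟨D, hD0, hD⟩ := (ZSpan.fundamentalDomain_isBounded b).exists_pos_norm_le
  set V : ℝ := μ.real F with hV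
  set B : ℝ := μ.real (Metric.ball (0 : E) 1) with hB
  have hFfin : μ F ≠ ⊤ := (ZSpan.fundamentalDomain_isBounded b).measure_lt_top.ne
  have hV0 : 0 < V := ENNReal.toReal_pos (ZSpan.measure_fundamentalDomain_ne_zero b) hFfin
  have hB0 : 0 < B := ENNReal.toReal_pos (Metric.measure_ball_pos μ 0 one_pos).ne'
    Metric.isBounded_ball.measure_lt_top.ne
  have hball : ∀ R : ℝ, 0 ≤ R → μ.real (Metric.closedBall (0 : E) R) = R ^ 2 * B := by
    intro R hR
    rw [Measure.real, Measure.addHaar_closedBall μ 0 hR, h2, ENNReal.toReal_mul,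
      ENNReal.toReal_ofReal (by positivity)]
    rfl
  refine ⟨B / V, B * (2 * D + D ^ 2) / V, by positivity, by positivity, fun R hR S hS => ?_⟩
  -- the union of the translates
  set T : E → Set E := fun y => {x | x - y ∈ F} with hT
  have hTm : ∀ y, MeasurableSet (T y) := fun y => (measurable_id.sub_const y) hFm
  have hTμ : ∀ y, μ (T y) = μ F := by
    intro y
    have : T y = (fun x => x + (-y)) ⁻¹' F := by
      ext x
      simp only [hT, Set.mem_preimage, sub_eq_add_neg]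
      rfl
    rw [this, measure_preimage_add_right]
  have huniq : ∀ x : E, ∀ y ∈ Submodule.span ℤ (Set.range b), ∀ y' ∈ Submodule.span ℤ (Set.range b),
      x - y ∈ F → x - y' ∈ F → y = y' := by
    intro x y hy y' hy' h h'
    have hu := (ZSpan.exist_unique_vadd_mem_fundamentalDomain b x).unique
      (y₁ := ⟨-y, Submodule.neg_mem _ hy⟩) (y₂ := ⟨-y', Submodule.neg_mem _ hy'⟩)
      (by
        show -y + x ∈ F
        rwa [neg_add_eq_sub])
      (by
        show -y' + x ∈ F
        rwa [neg_add_eq_sub])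
    exact neg_injective (congrArg Subtype.val hu)
  have hdisj : Set.PairwiseDisjoint (S : Set E) T := by
    intro y hy y' hy' hne
    rw [Function.onFun, Set.disjoint_left]
    intro x hx hx'
    exact hne (huniq x y ((hS y).1 hy).1 y' ((hS y').1 hy').1 hx hx')
  have hU : μ.real (⋃ y ∈ S, T y) = S.card * V := by
    rw [Measure.real, measure_biUnion_finset hdisj fun y _ => hTm y]
    simp only [hTμ, Finset.sum_const, nsmul_eq_mul]
    rw [ENNReal.toReal_mul, ENNReal.toReal_natCast]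
    rfl
  have hup : (⋃ y ∈ S, T y) ⊆ Metric.closedBall (0 : E) (R + D) := by
    intro x hx
    simp only [Set.mem_iUnion] at hx
    obtain ⟨y, hy, hxy⟩ := hx
    rw [mem_closedBall_zero_iff]
    have h1 := ((hS y).1 hy).2
    have h3 : ‖x - y‖ ≤ D := hD _ hxy
    calc ‖x‖ = ‖y + (x - y)‖ := by congr 1; abel
      _ ≤ ‖y‖ + ‖x - y‖ := norm_add_le _ _
      _ ≤ R + D := by linarith
  have h1 : S.card * V ≤ (R + D) ^ 2 * B := by
    rw [← hU, ← hball (R + D) (by linarith)]
    exact measureReal_mono hup (Metric.isBounded_closedBall.measure_lt_top.ne)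
  have h3 : R ^ 2 * B - (2 * D + D ^ 2) * (R + 1) * B ≤ S.card * V := by
    rcases le_or_gt D R with h | h
    · have hlow : Metric.closedBall (0 : E) (R - D) ⊆ ⋃ y ∈ S, T y := by
        intro x hx
        rw [mem_closedBall_zero_iff] at hx
        obtain ⟨⟨y, hy⟩, hyx, -⟩ := ZSpan.exist_unique_vadd_mem_fundamentalDomain b x
        have hyx' : y + x ∈ F := hyx
        have h4 : x - (-y) ∈ F := by rwa [sub_neg_eq_add, add_comm]
        have h5 : ‖y + x‖ ≤ D := hD _ hyx'
        have h6 : ‖-y‖ ≤ R := by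
          calc ‖-y‖ = ‖x - (y + x)‖ := by congr 1; abel
            _ ≤ ‖x‖ + ‖y + x‖ := norm_sub_le _ _
            _ ≤ R := by linarith
        simp only [Set.mem_iUnion]
        exact ⟨-y, (hS _).2 ⟨Submodule.neg_mem _ hy, h6⟩, h4⟩
      have hfin : μ (⋃ y ∈ S, T y) ≠ ⊤ :=
        ((measure_mono hup).trans_lt Metric.isBounded_closedBall.measure_lt_top).ne
      have h7 : (R - D) ^ 2 * B ≤ S.card * V := by
        rw [← hU, ← hball (R - D) (by linarith)]
        exact measureReal_mono hlow hfin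
      have h8 : R ^ 2 * B - (2 * D + D ^ 2) * (R + 1) * B ≤ (R - D) ^ 2 * B := by
        rw [← sub_mul]
        apply mul_le_mul_of_nonneg_right _ hB0.le
        nlinarith [mul_nonneg hR hD0.le, mul_nonneg hR (sq_nonneg D)]
      linarith
    · have h7 : 0 ≤ (S.card : ℝ) * V := by positivity
      have h8 : R ^ 2 * B - (2 * D + D ^ 2) * (R + 1) * B ≤ 0 := by
        rw [← sub_mul]
        apply mul_nonpos_of_nonpos_of_nonneg _ hB0.le
        nlinarith [mul_nonneg hR hD0.le, mul_nonneg hR (sq_nonneg D)]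
      linarith
  have h9 : |(S.card : ℝ) * V - B * R ^ 2| ≤ B * (2 * D + D ^ 2) * (R + 1) := by
    rw [abs_le]
    constructor
    · linarith
    · have : (R + D) ^ 2 * B ≤ B * R ^ 2 + B * (2 * D + D ^ 2) * (R + 1) := by
        have h10 : (R + D) ^ 2 ≤ R ^ 2 + (2 * D + D ^ 2) * (R + 1) := by
          nlinarith [mul_nonneg hR hD0.le, mul_nonneg hR (sq_nonneg D)]
        nlinarith [mul_le_mul_of_nonneg_right h10 hB0.le]
      linarith
  have h10 : (S.card : ℝ) - B / V * R ^ 2 = ((S.card : ℝ) * V - B * R ^ 2) / V := by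
    field_simp
  rw [h10, abs_div, abs_of_pos hV0, div_le_iff₀ hV0]
  calc _ ≤ _ := h9
    _ = _ := by field_simp

end lattice

noncomputable section

open NumberField NumberField.mixedEmbedding NumberField.InfinitePlace NumberField.Units
open NumberField.mixedEmbedding.fundamentalCone Ideal
open scoped nonZeroDivisors

section field

variable (K : Type) [Field K] [NumberField K] [IsTotallyComplex K]

theorem card_place (h2 : finrank ℚ K = 2) : Fintype.card (InfinitePlace K) = 1 := by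
  rw [card_eq_nrRealPlaces_add_nrComplexPlaces, IsTotallyComplex.nrRealPlaces_eq_zero, zero_add]
  have := IsTotallyComplex.finrank (K := K)
  omega

open scoped Classical in
/-- the norm on the mixed space -/
theorem norm_mixed (h2 : finrank ℚ K = 2) (x : mixedSpace K) :
    mixedEmbedding.norm x = ‖x‖ ^ 2 := by
  classical
  obtain ⟨w₀, hw₀⟩ := Fintype.card_eq_one_iff.1 (card_place K h2)
  have huniv : (Finset.univ : Finset (InfinitePlace K)) = {w₀} := by
    ext w
    simp [hw₀ w]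
  have h1 : ‖x‖ = normAtPlace w₀ x := by
    rw [norm_eq_sup'_normAtPlace]
    apply le_antisymm
    · refine Finset.sup'_le _ _ fun w _ => ?_
      rw [hw₀ w]
    · exact Finset.le_sup' (fun w => normAtPlace w x) (Finset.mem_univ w₀)
  rw [mixedEmbedding.norm_apply, huniv, Finset.prod_singleton, h1, IsTotallyComplex.mult_eq]

open scoped Classical in
theorem mem_cone (h2 : finrank ℚ K = 2) (x : mixedSpace K) :
    x ∈ fundamentalCone K ↔ x ≠ 0 := by
  classical
  have hr : Units.rank K = 0 := by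
    unfold Units.rank
    rw [card_place K h2]
  have hempty : IsEmpty (Fin (Units.rank K)) := by
    rw [hr]
    infer_instance
  unfold fundamentalCone
  rw [Set.mem_sdiff, Set.mem_preimage, ZSpan.mem_fundamentalDomain, Set.mem_ofPred_eq,
    norm_mixed K h2]
  constructor
  · rintro ⟨-, h⟩ rfl
    apply h
    rw [norm_zero]
    norm_num
  · intro h
    refine ⟨fun i => hempty.elim i, ?_⟩
    have := norm_pos_iff.2 h
    positivity

open scoped Classical in
/-- the elements of an ideal of bounded norm -/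
theorem ideal_count (h2 : finrank ℚ K = 2) (J : (Ideal (𝓞 K))⁰) :
    ∃ c C : ℝ, 0 < c ∧ 0 ≤ C ∧ ∀ s : ℝ, 0 ≤ s →
      |(Nat.card {a : idealSet K J // mixedEmbedding.norm (a : mixedSpace K) ≤ s} : ℝ) - c * s| ≤
        C * (Real.sqrt s + 1) := by
  classical
  have hfr : finrank ℝ (mixedSpace K) = 2 := by rw [mixedEmbedding.finrank, h2]
  obtain ⟨c, C, hc, hC, h⟩ := lattice_count
    (fractionalIdealLatticeBasis K (FractionalIdeal.mk0 K J)) hfr
  refine ⟨c, C + 1, hc, by linarith, fun s hs => ?_⟩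
  have hfin : ({x : mixedSpace K | x ∈ Submodule.span ℤ (Set.range
      (fractionalIdealLatticeBasis K (FractionalIdeal.mk0 K J))) ∧
      ‖x‖ ≤ Real.sqrt s}).Finite := by
    refine (ZSpan.setFinite_inter (fractionalIdealLatticeBasis K (FractionalIdeal.mk0 K J))
      (Metric.isBounded_closedBall (x := (0 : mixedSpace K)) (r := Real.sqrt s))).subset ?_
    rintro x ⟨h1, h3⟩
    exact ⟨mem_closedBall_zero_iff.2 h3, h1⟩
  have hS := h (Real.sqrt s) (Real.sqrt_nonneg s) hfin.toFinset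
    (fun x => by rw [Set.Finite.mem_toFinset]; rfl)
  rw [Real.sq_sqrt hs] at hS
  have hcard : Nat.card {a : idealSet K J // mixedEmbedding.norm (a : mixedSpace K) ≤ s} =
      (hfin.toFinset.erase 0).card := by
    rw [Nat.card_congr (Equiv.subtypeSubtypeEquivSubtypeInter (fun x => x ∈ idealSet K J)
      (fun x => mixedEmbedding.norm x ≤ s))]
    refine Nat.subtype_card _ fun x => ?_
    rw [Finset.mem_erase, Set.Finite.mem_toFinset, Set.mem_ofPred_eq, span_idealLatticeBasis,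
      norm_mixed K h2, ← Real.le_sqrt (norm_nonneg _) hs]
    show _ ↔ (x ∈ fundamentalCone K ∧
      x ∈ (mixedEmbedding.idealLattice K (FractionalIdeal.mk0 K J))) ∧ _
    rw [mem_cone K h2, and_assoc]
  have h0 : (0 : mixedSpace K) ∈ hfin.toFinset := by
    rw [Set.Finite.mem_toFinset]
    refine ⟨Submodule.zero_mem _, ?_⟩
    rw [norm_zero]
    exact Real.sqrt_nonneg s
  rw [hcard, Finset.card_erase_of_mem h0, Nat.cast_sub (Finset.card_pos.2 ⟨0, h0⟩), Nat.cast_one]
  have e : (hfin.toFinset.card : ℝ) - 1 - c * s = (hfin.toFinset.card - c * s) - 1 := by ring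
  rw [e]
  refine (abs_sub _ _).trans ?_
  rw [abs_one]
  have := Real.sqrt_nonneg s
  nlinarith

/-- ideals in a class (the first step of the proof in Mathlib) -/
theorem class_aux {C : ClassGroup (𝓞 K)} {J : (Ideal (𝓞 K))⁰} {s : ℝ}
    (hJ : ClassGroup.mk0 J = C⁻¹) :
    Nat.card {I : (Ideal (𝓞 K))⁰ // absNorm (I : Ideal (𝓞 K)) ≤ s ∧ ClassGroup.mk0 I = C}
      = Nat.card {I : (Ideal (𝓞 K))⁰ // (J : Ideal (𝓞 K)) ∣ I ∧ Submodule.IsPrincipal (I : Ideal (𝓞 K)) ∧
        absNorm (I : Ideal (𝓞 K)) ≤ s * absNorm (J : Ideal (𝓞 K))} := by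
  simp_rw [← nonZeroDivisors_dvd_iff_dvd_coe]
  refine Nat.card_congr ?_
  refine ((Equiv.dvd J).subtypeEquiv fun I ↦ ?_).trans
    (Equiv.subtypeSubtypeEquivSubtypeInter (fun I : (Ideal (𝓞 K))⁰ ↦ J ∣ I) _)
  rw [← ClassGroup.mk0_eq_one_iff (SetLike.coe_mem _)]
  simp_rw [Equiv.dvd_apply, Submonoid.coe_mul, ← Submonoid.mul_def, _root_.map_mul, hJ,
    inv_mul_eq_one, Nat.cast_mul, mul_comm s, eq_comm, and_comm, and_congr_left_iff]
  exact fun _ ↦
    (mul_le_mul_iff_of_pos_left (Nat.cast_pos.mpr (absNorm_pos_of_nonZeroDivisors J))).symm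

theorem class_count (h2 : finrank ℚ K = 2) (Cl : ClassGroup (𝓞 K)) :
    ∃ c C : ℝ, 0 < c ∧ 0 ≤ C ∧ ∀ s : ℝ, 0 ≤ s →
      |(Nat.card {I : (Ideal (𝓞 K))⁰ // absNorm (I : Ideal (𝓞 K)) ≤ s ∧
        ClassGroup.mk0 I = Cl} : ℝ) - c * s| ≤ C * (Real.sqrt s + 1) := by
  obtain ⟨J, hJ⟩ := ClassGroup.mk0_surjective Cl⁻¹
  obtain ⟨c, C, hc, hC, h⟩ := ideal_count K h2 J
  have hN : 0 < (absNorm (J : Ideal (𝓞 K)) : ℝ) :=
    Nat.cast_pos.mpr (absNorm_pos_of_nonZeroDivisors J)
  have hw : 0 < (torsionOrder K : ℝ) := Nat.cast_pos.mpr (torsionOrder_pos K)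
  set n : ℝ := (absNorm (J : Ideal (𝓞 K)) : ℝ) with hn
  set w : ℝ := (torsionOrder K : ℝ) with hwd
  refine ⟨c * n / w, C * (Real.sqrt n + 1) / w, by positivity, by positivity, fun s hs => ?_⟩
  have h3 := h (s * n) (by positivity)
  rw [← card_isPrincipal_dvd_norm_le, ← class_aux K hJ, Nat.cast_mul, ← hwd] at h3
  have e : (Nat.card {I : (Ideal (𝓞 K))⁰ // absNorm (I : Ideal (𝓞 K)) ≤ s ∧
        ClassGroup.mk0 I = Cl} : ℝ) - c * n / w * s =
      ((Nat.card {I : (Ideal (𝓞 K))⁰ // absNorm (I : Ideal (𝓞 K)) ≤ s ∧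
        ClassGroup.mk0 I = Cl} : ℝ) * w - c * (s * n)) / w := by
    field_simp
  rw [e, abs_div, abs_of_pos hw, div_le_iff₀ hw]
  refine h3.trans ?_
  have h4 : Real.sqrt (s * n) = Real.sqrt s * Real.sqrt n := Real.sqrt_mul hs n
  rw [h4]
  have h5 : C * (Real.sqrt n + 1) / w * (Real.sqrt s + 1) * w =
      C * ((Real.sqrt n + 1) * (Real.sqrt s + 1)) := by field_simp
  rw [h5]
  have a1 := Real.sqrt_nonneg s
  have a2 := Real.sqrt_nonneg n
  apply mul_le_mul_of_nonneg_left _ hC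
  nlinarith

theorem total_count (h2 : finrank ℚ K = 2) :
    ∃ c C : ℝ, 0 < c ∧ 0 ≤ C ∧ ∀ s : ℝ, 0 ≤ s →
      |(Nat.card {I : (Ideal (𝓞 K))⁰ // absNorm (I : Ideal (𝓞 K)) ≤ s} : ℝ) - c * s| ≤
        C * (Real.sqrt s + 1) := by
  classical
  choose c C hc hC h using class_count K h2
  refine ⟨∑ X, c X, ∑ X, C X, Finset.sum_pos (fun X _ => hc X) Finset.univ_nonempty,
    Finset.sum_nonneg fun X _ => hC X, fun s hs => ?_⟩
  have hsum : (Nat.card {I : (Ideal (𝓞 K))⁰ // absNorm (I : Ideal (𝓞 K)) ≤ s} : ℝ) =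
      ∑ X : ClassGroup (𝓞 K), (Nat.card {I : (Ideal (𝓞 K))⁰ // absNorm (I : Ideal (𝓞 K)) ≤ s ∧
        ClassGroup.mk0 I = X} : ℝ) := by
    have : Fintype {I : (Ideal (𝓞 K))⁰ // absNorm (I : Ideal (𝓞 K)) ≤ s} := by
      simp_rw [← Nat.le_floor_iff hs]
      refine @Fintype.ofFinite _ (finite_setOfPred_absNorm_le₀ ⌊s⌋₊)
    let e := fun X : ClassGroup (𝓞 K) ↦ Equiv.subtypeSubtypeEquivSubtypeInter
      (fun I : (Ideal (𝓞 K))⁰ ↦ absNorm I.1 ≤ s) (fun I ↦ ClassGroup.mk0 I = X)
    simp_rw [← Nat.card_congr (e _), Nat.card_eq_fintype_card, Fintype.subtype_card]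
    rw [Fintype.card, Finset.card_eq_sum_card_fiberwise (f := fun I ↦ ClassGroup.mk0 I.1)
      (t := Finset.univ) (fun _ _ ↦ Finset.mem_univ _), Nat.cast_sum]
  rw [hsum, Finset.sum_mul, ← Finset.sum_sub_distrib, Finset.sum_mul]
  exact (Finset.abs_sum_le_sum_abs _ _).trans (Finset.sum_le_sum fun X _ => h X s hs)

theorem sum_rI (N : ℕ) : ∑ n ∈ Finset.Icc 1 N, rI K n =
    (Nat.card {I : (Ideal (𝓞 K))⁰ // (absNorm (I : Ideal (𝓞 K)) : ℝ) ≤ (N : ℝ)} : ℝ) := by
  classical
  have hfin : ({I : Ideal (𝓞 K) | absNorm I ∈ Finset.Icc 1 N}).Finite := by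
    refine (finite_setOfPred_absNorm_le N).subset fun I hI => ?_
    exact (Finset.mem_Icc.1 (show absNorm I ∈ Finset.Icc 1 N from hI)).2
  have h1 : Nat.card {I : (Ideal (𝓞 K))⁰ // (absNorm (I : Ideal (𝓞 K)) : ℝ) ≤ (N : ℝ)} =
      hfin.toFinset.card := by
    rw [Nat.card_congr (Equiv.subtypeSubtypeEquivSubtypeInter (fun I => I ∈ (Ideal (𝓞 K))⁰)
      (fun I => (absNorm I : ℝ) ≤ (N : ℝ)))]
    refine Nat.subtype_card _ fun I => ?_
    rw [Set.Finite.mem_toFinset, Set.mem_ofPred_eq, Finset.mem_Icc, mem_nonZeroDivisors_iff_ne_zero,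
      Nat.cast_le, Nat.one_le_iff_ne_zero, Ne, absNorm_eq_zero_iff]
    rfl
  rw [h1, Finset.card_eq_sum_card_fiberwise (f := fun I => absNorm I) (t := Finset.Icc 1 N)
    (fun I hI => by
      have := hfin.mem_toFinset.1 hI
      exact this), Nat.cast_sum]
  refine Finset.sum_congr rfl fun n hn => ?_
  have hn0 : n ≠ 0 := by
    have := (Finset.mem_Icc.1 hn).1
    omega
  unfold rI
  rw [if_neg hn0]
  congr 1
  rw [← Set.ncard_coe_finset]
  congr 1
  ext I
  simp only [Finset.coe_filter, Set.Finite.mem_toFinset, Set.mem_ofPred_eq]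
  constructor
  · intro h
    refine ⟨?_, h⟩
    rw [h]
    exact hn
  · exact fun h => h.2

end field

theorem ha : S_HA := by
  intro K _ _ _ h2
  obtain ⟨c, C, hc, hC, h⟩ := total_count K h2
  refine ⟨c, 2 * C + c + 1, hc, ?_, ?_, by linarith, ?_, ?_⟩
  · intro n
    unfold rI
    split_ifs
    · exact le_rfl
    · positivity
  · unfold rI
    rw [if_pos rfl]
  · rw [abs_of_pos hc]
    linarith
  · intro N
    rcases Nat.eq_zero_or_pos N with h0 | h0
    · subst h0
      simp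
    · rw [sum_rI]
      have h1 := h N (Nat.cast_nonneg N)
      have hN : (1 : ℝ) ≤ N := by exact_mod_cast h0
      have h3 : (1 : ℝ) ≤ Real.sqrt N := Real.one_le_sqrt.2 hN
      refine h1.trans ?_
      nlinarith [mul_nonneg hC (Real.sqrt_nonneg N), mul_nonneg hc.le (Real.sqrt_nonneg N),
        mul_le_mul_of_nonneg_left h3 hC]

end

end Pool.Agent.N457.LB
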